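import Mathlib

/-!
Definitions for the support point problem on the unit ball of a complex inner product space E
(used with E complex n-space).
-/

namespace Pool.Agent.MP_5fe217_an.H77

open Metric Set

variable {E : Type} [NormedAddCommGroup E] [InnerProductSpace ℂ E]

open Classical in
/-- a map on the open unit ball, extended by zero outside the ball (only its values in the ball are used) -/
noncomputable def extz (g : C(ball (0 : E) 1, E)) (z : E) : E :=
  if h : z ∈ ball (0 : E) 1 then g ⟨z, h⟩ else 0

/-- holomorphic maps on the ball -/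
def IsHol (g : C(ball (0 : E) 1, E)) : Prop := DifferentiableOn ℂ (extz g) (ball 0 1)

theorem isHol_add {a b : C(ball (0 : E) 1, E)} (ha : IsHol a) (hb : IsHol b) : IsHol (a + b) :=
  (DifferentiableOn.add ha hb).congr fun z hz => by simp [extz, hz]

theorem isHol_zero : IsHol (0 : C(ball (0 : E) 1, E)) :=
  (differentiableOn_const (0 : E)).congr fun z hz => by simp [extz, hz]

theorem isHol_smul (c : ℂ) {a : C(ball (0 : E) 1, E)} (ha : IsHol a) : IsHol (c • a) :=
  (DifferentiableOn.const_smul ha c).congr fun z hz => by simp [extz, hz]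

variable (E) in
/-- the space of holomorphic maps from the ball to E, as a linear subspace of the continuous maps;
it carries the subspace topology of the compact-open topology -/
def Hol : Submodule ℂ C(ball (0 : E) 1, E) where
  carrier := {g | IsHol g}
  add_mem' := isHol_add
  zero_mem' := isHol_zero
  smul_mem' := isHol_smul

/-- m(A), the minimum of the real part of the inner product of Az and z over the unit sphere -/
noncomputable def mlow (A : E →L[ℂ] E) : ℝ :=
  sInf ((fun z => (inner ℂ z (A z)).re) '' sphere (0 : E) 1)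

/-- the largest real part of a point of the spectrum of A -/
noncomputable def kplus (A : E →L[ℂ] E) : ℝ :=
  sSup (Complex.re '' spectrum ℂ A)

/-- f(0) = 0 and Df(0) = A -/
def Normalized (A : E →L[ℂ] E) (f : C(ball (0 : E) 1, E)) : Prop :=
  extz f 0 = 0 ∧ fderiv ℂ (extz f) 0 = A

/-- the image is open and there is a holomorphic inverse on it -/
def Biholo (f : C(ball (0 : E) 1, E)) : Prop :=
  IsOpen (range f) ∧ ∃ G : E → E, DifferentiableOn ℂ G (range f) ∧ ∀ z, G (f z) = z.1

/-- the image is invariant under exp(-tA), t at least 0 -/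
def Invar (A : E →L[ℂ] E) (f : C(ball (0 : E) 1, E)) : Prop :=
  ∀ (z : ball (0 : E) 1) (t : ℝ), 0 ≤ t → NormedSpace.exp ((-t : ℂ) • A) (f z) ∈ range f

/-- normalized biholomorphic maps of the ball whose image is invariant under exp(-tA), t at least 0 -/
def Shat (A : E →L[ℂ] E) : Set (Hol E) :=
  {f | Normalized (ContinuousLinearMap.id ℂ E) f.1 ∧ Biholo f.1 ∧ Invar A f.1}

/-- holomorphic h with h(0) = 0, Dh(0) = A and positive real part of the inner product of h(z) and z -/
def Ngen (A : E →L[ℂ] E) : Set (Hol E) :=
  {h | Normalized A h.1 ∧ ∀ z : ball (0 : E) 1, z.1 ≠ 0 → 0 < (inner ℂ z.1 (h.1 z)).re}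

/-- Df(z) is invertible and h(z) is the inverse of Df(z) applied to A f(z), for all z in the ball -/
def IsField (A : E →L[ℂ] E) (f h : C(ball (0 : E) 1, E)) : Prop :=
  ∀ z : ball (0 : E) 1, (fderiv ℂ (extz f) z.1).IsInvertible ∧
    h z = (fderiv ℂ (extz f) z.1).inverse (A (f z))

/-- g is a support point of the family G in the topological vector space X -/
def IsSupp {X : Type} [TopologicalSpace X] [AddCommMonoid X] [Module ℂ X] (G : Set X) (g : X) : Prop :=
  g ∈ G ∧ ∃ Λ : X →L[ℂ] ℂ, (∃ g₁ ∈ G, ∃ g₂ ∈ G, (Λ g₁).re ≠ (Λ g₂).re) ∧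
    ∀ g' ∈ G, (Λ g').re ≤ (Λ g).re

/-- the condition on A: the largest real part of the spectrum is below twice m(A) -/
def InA (A : E →L[ℂ] E) : Prop := kplus A < 2 * mlow A

/-- the map f(z) = z / (1 - l(z) ^ 2) lies in the spirallike class and is not a support point of it, while its
generating field h is a support point of the generator class -/
def Violates (A : E →L[ℂ] E) (l : E → ℂ) : Prop :=
  ∃ f h : Hol E, (∀ z, f.1 z = (1 / (1 - l z.1 ^ 2)) • z.1) ∧
    f ∈ Shat A ∧ IsField A f.1 h.1 ∧ IsSupp (Ngen A) h ∧ ¬ IsSupp (Shat A) f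

end Pool.Agent.MP_5fe217_an.H77
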